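import Pool.Agent.Q3.FracRev.Classes

open Pool.Agent.Q3.FracRev

namespace Pool.Agent.Results.MP_d93d44_co.NotClosedUnderConjugates

/-- There is a graph `G` with distinct vertices `a`, `b` and a time `t` such that
`U(t) = exp (i t A)` has `U(t)_{a,c} = U(t)_{b,c} = 0` for every vertex `c ∉ {a, b}` and
`U(t)_{a,b} ≠ 0` (proper fractional revival on `{a, b}`), but
`C^+ = {θ : (E_θ)_{a,b} > 0}` is not closed under algebraic conjugates. -/
theorem result : ∃ (V : Type) (_ : Fintype V) (_ : DecidableEq V) (G : SimpleGraph V)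
    (_ : DecidableRel G.Adj) (a b : V), a ≠ b ∧
    (∃ t : ℝ, (∀ c : V, c ≠ a → c ≠ b →
        NormedSpace.exp ((Complex.I * (t : ℂ)) • G.adjMatrix ℂ) a c = 0 ∧
        NormedSpace.exp ((Complex.I * (t : ℂ)) • G.adjMatrix ℂ) b c = 0) ∧
      NormedSpace.exp ((Complex.I * (t : ℂ)) • G.adjMatrix ℂ) a b ≠ 0) ∧
    ¬ ConjClosed (Cplus G a b) :=
  ⟨V, inferInstance, inferInstance, X, inferInstance, Sum.inl 0, Sum.inl 1, by decide,
    revival_entries, classes⟩

end Pool.Agent.Results.MP_d93d44_co.NotClosedUnderConjugates
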